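import Mathlib
import Pool.Agent.H24.LieNil

set_option autoImplicit false
open Pool.Agent.H24.Alg

namespace Pool.Agent.Results.MP_4b2ccd_lc.NilpotentLie

universe u

theorem result (k : Type u) [Field k] (r n m : ℕ)
    (a b : Fin m → FreeLieAlgebra k (Fin r) ⧸
      LieModule.lowerCentralSeries k (FreeLieAlgebra k (Fin r)) (FreeLieAlgebra k (Fin r)) n)
    (hab : TypeEq k (fun p q => ⁅p, q⁆) (fun p q => ⁅p, q⁆) a b) :
    ∃ σ : (FreeLieAlgebra k (Fin r) ⧸
        LieModule.lowerCentralSeries k (FreeLieAlgebra k (Fin r)) (FreeLieAlgebra k (Fin r)) n)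
      ≃ₗ⁅k⁆ (FreeLieAlgebra k (Fin r) ⧸
        LieModule.lowerCentralSeries k (FreeLieAlgebra k (Fin r)) (FreeLieAlgebra k (Fin r)) n),
      ∀ i, σ (a i) = b i := by
  obtain ⟨σ, h1, h2⟩ := homog (br k (FN k r n)) lie_H (FN_nil r n) (FNx k r n) (FN_gen r n)
    (FN_ext r n) a b hab
  exact ⟨{ σ with map_lie' := fun {p q} => h1 p q }, h2⟩

end Pool.Agent.Results.MP_4b2ccd_lc.NilpotentLie
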